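import Pool.Agent.E8helper37.RY.Main

/-!
# A zero-one law for arithmetic expressions and spaces of small dimension
-/

set_option autoImplicit false

namespace Pool.Agent.E8helper37.RY

open Finset Module
open Pool.Agent.E8helper37.RX

/-- The operations `+`, `*`, `/`. -/
noncomputable def arith : Fin 3 → ℝ → ℝ → ℝ :=
  ![fun x y => x + y, fun x y => x * y, fun x y => x / y]

theorem arith_ari : Ari arith := by
  intro o
  fin_cases o
  · exact Or.inl rfl
  · exact Or.inr (Or.inl rfl)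
  · exact Or.inr (Or.inr rfl)

/-- For every `ε > 0` and all large `n` the following holds for the expressions `t` with `n` leaves labelled by `σ`
and with the operations `+`, `*`, `/`, whose values for the labels `v s` are denoted by `C`. For all complex `a, b, c, d`
with `a d ≠ b c` and all rational subspaces `W` of `ℂ` of dimension at most `N` the number `(a C + b) / (c C + d)` is in
`W` for at most an `ε`-fraction of the expressions; and `C` is algebraic of degree at most `N` for at most an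
`ε`-fraction of the expressions. -/
def Few {σ : Type} (v : σ → ℝ) (N : ℕ) : Prop :=
  ∀ ε : ℝ, 0 < ε → ∃ n₀ : ℕ, ∀ n ≥ n₀,
    (∀ a b c d : ℂ, a * d ≠ b * c → ∀ W : Submodule ℚ ℂ, FiniteDimensional ℚ W → finrank ℚ W ≤ N →
      (Nat.card {t : Expr σ (Fin 3) // t.leaves = n ∧
        (a * ((t.value arith v : ℝ) : ℂ) + b) / (c * ((t.value arith v : ℝ) : ℂ) + d) ∈ W} : ℝ) ≤
        ε * Nat.card {t : Expr σ (Fin 3) // t.leaves = n}) ∧
    (Nat.card {t : Expr σ (Fin 3) // t.leaves = n ∧ DegLe N (t.value arith v)} : ℝ) ≤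
      ε * Nat.card {t : Expr σ (Fin 3) // t.leaves = n}

section

variable {σ : Type} [Fintype σ] {v : σ → ℝ}

theorem few_of (hv : ∀ s, 0 < v s) {N : ℕ} (hN1 : 1 ≤ N)
    (hN : ∀ L : IntermediateField ℚ ℝ, (∀ s, v s ∈ L) → FiniteDimensional ℚ L → N < finrank ℚ L) :
    Few v N := by
  classical
  intro ε hε
  obtain ⟨n₁, hn₁⟩ := main_space arith_ari hv (p := 0) (q := 1) rfl rfl (by decide) hN1 hN hε
  obtain ⟨n₂, hn₂⟩ := main_deg arith_ari hv (p := 0) (q := 1) rfl rfl (by decide) hN1 hN hε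
  refine ⟨max n₁ n₂ + 1, fun n hn => ?_⟩
  obtain ⟨m, rfl⟩ : ∃ m, n = m + 1 := ⟨n - 1, by omega⟩
  have h1 : n₁ ≤ m := by
    have := le_max_left n₁ n₂
    omega
  have h2 : n₂ ≤ m := by
    have := le_max_right n₁ n₂
    omega
  constructor
  · intro a b c d hdet W hW hWN
    rw [card_eq m (fun t : Expr σ (Fin 3) => (a * ((t.value arith v : ℝ) : ℂ) + b) /
        (c * ((t.value arith v : ℝ) : ℂ) + d) ∈ W), card_all]
    exact hn₁ m h1 a b c d hdet W hW hWN
  · rw [card_eq m (fun t : Expr σ (Fin 3) => DegLe N (t.value arith v)), card_all]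
    exact hn₂ m h2

theorem card_pos [Nonempty σ] (n : ℕ) :
    (0 : ℝ) < Nat.card {t : Expr σ (Fin 3) // t.leaves = n + 1} := by
  classical
  rw [card_all, Tn_eq]
  have h1 := catalan_ge n
  have h2 : (0 : ℝ) < 4 ^ n := by positivity
  have h3 : (0 : ℝ) < catalan n := by
    by_contra hc
    push Not at hc
    have : 2 * ((n : ℝ) + 1) ^ 2 * catalan n ≤ 0 :=
      mul_nonpos_of_nonneg_of_nonpos (by positivity) hc
    linarith
  have h4 : (0 : ℝ) < Fintype.card σ := by exact_mod_cast Fintype.card_pos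
  positivity

/-- If a field of degree at most `N` contains the labels, then it contains all values. -/
theorem few_only [Nonempty σ] {N : ℕ} (h : Few v N) (L : IntermediateField ℚ ℝ) (hL : ∀ s, v s ∈ L)
    (hfd : FiniteDimensional ℚ L) : N < finrank ℚ L := by
  by_contra hcon
  push Not at hcon
  obtain ⟨n₀, hn₀⟩ := h (1 / 2) (by norm_num)
  have h1 := (hn₀ (n₀ + 1) (by omega)).2
  have h2 : Nat.card {t : Expr σ (Fin 3) // t.leaves = n₀ + 1 ∧ DegLe N (t.value arith v)} =
      Nat.card {t : Expr σ (Fin 3) // t.leaves = n₀ + 1} := by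
    congr 1
    have : ∀ t : Expr σ (Fin 3), (t.leaves = n₀ + 1 ∧ DegLe N (t.value arith v)) ↔
        t.leaves = n₀ + 1 := by
      intro t
      refine ⟨fun h => h.1, fun h => ⟨h, ?_⟩⟩
      have hx := value_mem arith_ari L hL t
      refine ⟨minpoly ℚ (⟨t.value arith v, hx⟩ : L),
        minpoly.ne_zero (IsIntegral.of_finite ℚ _), (minpoly.natDegree_le _).trans hcon, ?_⟩
      have h3 := minpoly.aeval ℚ (⟨t.value arith v, hx⟩ : L)
      have h4 := congrArg L.val h3
      rw [← Polynomial.aeval_algHom_apply, map_zero] at h4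
      exact h4
    simp only [this]
  rw [h2] at h1
  have h3 := card_pos (σ := σ) n₀
  linarith

/-- **Zero-one law.** -/
theorem few_iff [Nonempty σ] (hv : ∀ s, 0 < v s) {N : ℕ} (hN1 : 1 ≤ N) :
    Few v N ↔ ∀ L : IntermediateField ℚ ℝ, (∀ s, v s ∈ L) → FiniteDimensional ℚ L →
      N < finrank ℚ L :=
  ⟨fun h L hL hfd => few_only h L hL hfd, few_of hv hN1⟩

/-- If one of the labels is transcendental, then almost all values are transcendental. -/
theorem almost_tr (hv : ∀ s, 0 < v s) (hs : ∃ s, Transcendental ℚ (v s)) {ε : ℝ} (hε : 0 < ε) :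
    ∃ n₀ : ℕ, ∀ n ≥ n₀,
    (Nat.card {t : Expr σ (Fin 3) // t.leaves = n ∧ IsAlgebraic ℚ (t.value arith v)} : ℝ) ≤
      ε * Nat.card {t : Expr σ (Fin 3) // t.leaves = n} := by
  classical
  obtain ⟨s, hs⟩ := hs
  obtain ⟨n₀, hn₀⟩ := main_mob arith_ari hv (p := 0) (q := 1) rfl rfl (by decide) hs 0 hε
  refine ⟨n₀ + 1, fun n hn => ?_⟩
  obtain ⟨m, rfl⟩ : ∃ m, n = m + 1 := ⟨n - 1, by omega⟩
  rw [card_eq m (fun t : Expr σ (Fin 3) => IsAlgebraic ℚ (t.value arith v)), card_all]
  refine le_trans (Finset.sum_le_sum fun t _ => ind_mono fun h => ?_)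
    (hn₀ m (by omega) 1 0 0 1 (by simp) ⊥ inferInstance (by simp))
  have h1 : ((t.value arith v : ℝ) : ℂ) ∈ Pool.Agent.H301R2.SSE.Lt :=
    Pool.Agent.H301R2.SSE.Lt_alg (h.algebraMap (A := ℂ))
  simpa using h1

end

end Pool.Agent.E8helper37.RY
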