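import Pool.Agent.E8helper37.RX.Main

/-!
# Patterns whose values are the points of a grid
-/

set_option autoImplicit false
set_option linter.unusedSectionVars false

namespace Pool.Agent.E8helper37.RY

open Finset
open Pool.Agent.E8helper37.RX

variable {σ ο : Type}

/-- multiply by the leaves of a word -/
def mw (q : ο) : List σ → Expr σ ο → Expr σ ο
  | [], t => t
  | a :: w, t => Expr.node q (mw q w t) (Expr.leaf a)

/-- the sum of blocks, each multiplied by a word -/
def tot (p q : ο) (s : σ) (h : ℕ) : List (List σ × ℕ) → Expr σ ο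
  | [] => Expr.leaf s
  | x :: l => Expr.node p (tot p q s h l) (mw q x.1 (blk p q s h x.2 (Expr.leaf s)))

theorem mw_nodes (q : ο) (w : List σ) (t : Expr σ ο) : (mw q w t).nodes = t.nodes + w.length := by
  induction w with
  | nil => rfl
  | cons a w ih => simp only [mw, Expr.nodes, ih, List.length_cons]; omega

theorem mw_inj (q : ο) (w : List σ) {t t' : Expr σ ο} (h : mw q w t = mw q w t') : t = t' := by
  induction w with
  | nil => exact h
  | cons a w ih =>
    simp only [mw, Expr.node.injEq, true_and, and_true] at h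
    exact ih h

theorem blk_nodes (p q : ο) (s : σ) {h i : ℕ} (hi : i ≤ h) :
    (blk p q s h i (Expr.leaf s)).nodes = h + 1 := by
  have h1 := comb_nodes p q s h [i] (by simpa using hi)
  simpa [comb] using h1

theorem tot_nodes (p q : ο) (s : σ) (h : ℕ) (l : List (List σ × ℕ)) (hl : ∀ x ∈ l, x.2 ≤ h) :
    (tot p q s h l).nodes = (l.map fun x => x.1.length + (h + 2)).sum := by
  induction l with
  | nil => simp [tot, Expr.nodes]
  | cons x l ih =>
    have h1 := hl x (by simp)
    have h2 := ih fun y hy => hl y (by simp [hy])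
    simp only [tot, Expr.nodes, mw_nodes, blk_nodes p q s h1, h2, List.map_cons, List.sum_cons]
    omega

theorem tot_inj {p q : ο} (hpq : p ≠ q) (s : σ) (h : ℕ) (l : List (List σ × ℕ)) :
    ∀ l' : List (List σ × ℕ), (∀ x ∈ l, x.2 ≤ h) → (∀ x ∈ l', x.2 ≤ h) →
    l.map Prod.fst = l'.map Prod.fst → tot p q s h l = tot p q s h l' → l = l' := by
  induction l with
  | nil =>
    intro l' _ _ h1 _
    symm
    simpa using h1.symm
  | cons x l ih =>
    intro l' h1 h2 h3 h4
    rcases l' with _ | ⟨x', l'⟩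
    · simp at h3
    · simp only [List.map_cons, List.cons.injEq] at h3
      simp only [tot, Expr.node.injEq, true_and] at h4
      have h5 : x.2 = x'.2 := by
        have h6 := h4.2
        rw [h3.1] at h6
        exact (blk_inj hpq s h (h1 x (by simp)) (h2 x' (by simp)) (mw_inj q x'.1 h6)).1
      rw [Prod.ext h3.1 h5, ih l' (fun y hy => h1 y (by simp [hy])) (fun y hy => h2 y (by simp [hy]))
        h3.2 h4.1]

/-- the product of the labels of a word -/
def mon (v : σ → ℝ) (w : List σ) : ℝ := (w.map v).prod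

theorem mw_value {f : ο → ℝ → ℝ → ℝ} {v : σ → ℝ} {q : ο} (hq : f q = fun x y => x * y)
    (w : List σ) (t : Expr σ ο) : (mw q w t).value f v = t.value f v * mon v w := by
  induction w with
  | nil => simp [mw, mon]
  | cons a w ih =>
    simp only [mw, Expr.value, hq, ih, mon, List.map_cons, List.prod_cons]
    ring

theorem blk_value {f : ο → ℝ → ℝ → ℝ} {v : σ → ℝ} {p q : ο} (hp : f p = fun x y => x + y)
    (hq : f q = fun x y => x * y) (s : σ) {h i : ℕ} (hi : i ≤ h) :
    (blk p q s h i (Expr.leaf s)).value f v =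
      v s * v s + h * v s + (v s * (v s - 1)) * i := by
  have h1 := comb_value hp hq s h [i] (v := v) (by simpa using hi)
  simp only [comb, List.length_singleton, base, pv] at h1
  rw [h1]
  ring

theorem tot_value {f : ο → ℝ → ℝ → ℝ} {v : σ → ℝ} {p q : ο} (hp : f p = fun x y => x + y)
    (hq : f q = fun x y => x * y) (s : σ) (h : ℕ) (l : List (List σ × ℕ)) (hl : ∀ x ∈ l, x.2 ≤ h) :
    (tot p q s h l).value f v = v s +
      (l.map fun x => (v s * v s + h * v s + (v s * (v s - 1)) * x.2) * mon v x.1).sum := by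
  induction l with
  | nil => simp [tot, Expr.value]
  | cons x l ih =>
    have h1 := hl x (by simp)
    have h2 := ih fun y hy => hl y (by simp [hy])
    simp only [tot, Expr.value, hp, mw_value hq, blk_value hp hq s h1, h2, List.map_cons,
      List.sum_cons]
    ring

variable {K : ℕ}

/-- the list of words and numbers -/
def lst2 {h : ℕ} (w : Fin K → List σ) (i : Fin K → Fin (h + 1)) : List (List σ × ℕ) :=
  List.ofFn fun k => (w k, (i k : ℕ))

theorem lst2_le {h : ℕ} (w : Fin K → List σ) (i : Fin K → Fin (h + 1)) :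
    ∀ x ∈ lst2 w i, x.2 ≤ h := by
  intro x hx
  unfold lst2 at hx
  rw [List.mem_ofFn] at hx
  obtain ⟨k, rfl⟩ := hx
  have := (i k).2
  simp only
  omega

/-- the point of the grid -/
noncomputable def pt2 (v : σ → ℝ) (s : σ) (w : Fin K → List σ) (h : ℕ) (i : Fin K → Fin (h + 1)) : ℝ :=
  v s + ∑ k : Fin K, (v s * v s + h * v s + (v s * (v s - 1)) * ((i k : ℕ) : ℝ)) * mon v (w k)

section

variable [DecidableEq σ] [DecidableEq ο]

/-- the family -/
def fam2 (p q : ο) (s : σ) (w : Fin K → List σ) (h : ℕ) : Finset (Expr σ ο) :=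
  (Finset.univ : Finset (Fin K → Fin (h + 1))).image fun i => tot p q s h (lst2 w i)

theorem fam2_nodes (p q : ο) (s : σ) (w : Fin K → List σ) (h : ℕ) :
    ∀ t ∈ fam2 p q s w h, t.nodes = ∑ k : Fin K, ((w k).length + (h + 2)) := by
  intro t ht
  unfold fam2 at ht
  rw [Finset.mem_image] at ht
  obtain ⟨i, -, rfl⟩ := ht
  rw [tot_nodes _ _ _ _ _ (lst2_le w i)]
  unfold lst2
  rw [List.map_ofFn, List.sum_ofFn]
  rfl

theorem fam2_inj {p q : ο} (hpq : p ≠ q) (s : σ) (w : Fin K → List σ) (h : ℕ) :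
    Function.Injective fun i : Fin K → Fin (h + 1) => tot p q s h (lst2 w i) := by
  intro i j hij
  have h1 := tot_inj hpq s h (lst2 w i) (lst2 w j) (lst2_le w i) (lst2_le w j) (by
    unfold lst2
    rw [List.map_ofFn, List.map_ofFn]
    rfl) hij
  unfold lst2 at h1
  have h2 := List.ofFn_injective h1
  funext k
  have h3 := congrFun h2 k
  simp only [Prod.mk.injEq, true_and] at h3
  exact Fin.ext h3

theorem fam2_card {p q : ο} (hpq : p ≠ q) (s : σ) (w : Fin K → List σ) (h : ℕ) :
    ((fam2 p q s w h).card : ℝ) = ((h : ℝ) + 1) ^ K := by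
  unfold fam2
  rw [Finset.card_image_of_injective _ (fam2_inj hpq s w h)]
  simp

theorem fam2_sum {f : ο → ℝ → ℝ → ℝ} {v : σ → ℝ} {p q : ο} (hp : f p = fun x y => x + y)
    (hq : f q = fun x y => x * y) (hpq : p ≠ q) (s : σ) (w : Fin K → List σ) (h : ℕ)
    (P : ℝ → Prop) : ∑ t ∈ fam2 p q s w h, ind (P (t.value f v)) =
      ∑ i : Fin K → Fin (h + 1), ind (P (pt2 v s w h i)) := by
  unfold fam2
  rw [Finset.sum_image fun i _ j _ hij => fam2_inj hpq s w h hij]
  refine Finset.sum_congr rfl fun i _ => ?_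
  rw [tot_value hp hq s h (lst2 w i) (lst2_le w i)]
  unfold pt2 lst2
  rw [List.map_ofFn, List.sum_ofFn]
  rfl

end

section

variable [Fintype σ] [Fintype ο] [DecidableEq σ] [DecidableEq ο]

/-- assembling, for an arbitrary family -/
theorem assemble2 {f : ο → ℝ → ℝ → ℝ} {v : σ → ℝ} {Fam : Finset (Expr σ ο)} {m : ℕ}
    (hm : ∀ t ∈ Fam, t.nodes = m) (hm0 : 1 ≤ m) (hne : Fam.Nonempty)
    (hσ : 0 < Fintype.card σ) (hο : 0 < Fintype.card ο) (Φ : (ℝ → Prop) → Prop)
    (hΦ : ∀ P, Φ P → ∀ (o : ο) (t : Expr σ ο), Φ (fun x => P (f o x (t.value f v))) ∧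
      Φ (fun x => P (f o (t.value f v) x))) (δ : ℝ) (hδ0 : 0 ≤ δ)
    (hδ : ∀ P, Φ P → ∑ t ∈ Fam, ind (P (t.value f v)) ≤ δ * Fam.card) {ε : ℝ} (hε : 0 < ε) :
    ∃ n₀, ∀ n ≥ n₀, ∀ P, Φ P → ∑ t ∈ ex σ ο n, ind (P (t.value f v)) ≤ (δ + ε) * Tn σ ο n := by
  obtain ⟨n₀, hn₀⟩ := avoid hm hm0 hne hσ hο hε
  refine ⟨n₀, fun n hn P hP => ?_⟩
  have h1 := fringe hm hm0 Φ hΦ δ hδ0 hδ n P hP
  have h2 := hn₀ n hn
  have h3 : ∑ t ∈ ex σ ο n, ind (Has Fam t) ≤ Tn σ ο n := by
    unfold Tn
    calc _ ≤ ∑ t ∈ ex σ ο n, (1 : ℝ) := Finset.sum_le_sum fun t _ => ind_le_one _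
      _ = _ := by simp
  have h4 : ∑ t ∈ ex σ ο n, ind (P (t.value f v)) ≤
      ∑ t ∈ ex σ ο n, ind (Has Fam t ∧ P (t.value f v)) + An Fam n := by
    unfold An
    rw [← Finset.sum_add_distrib]
    refine Finset.sum_le_sum fun t _ => ?_
    by_cases h5 : Has Fam t
    · rw [ind_neg (not_not.2 h5), add_zero]
      exact ind_mono fun h => ⟨h5, h⟩
    · rw [ind_pos h5]
      have := ind_le_one (P (t.value f v))
      have := ind_nonneg (Has Fam t ∧ P (t.value f v))
      linarith
  have h5 := mul_le_mul_of_nonneg_left h3 hδ0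
  rw [add_mul]
  linarith

end

end Pool.Agent.E8helper37.RY
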