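import Mathlib

/-!
# Values of a Möbius transformation on a progression in a rational space
-/

set_option autoImplicit false

namespace Pool.Agent.E8helper37.RY

open Finset Module Polynomial

/-- partial fractions -/
theorem pf_mem (W : Submodule ℚ ℂ) {β η ξ : ℂ} (J : Finset ℕ)
    (hJ : ∀ n ∈ J, ξ + (n : ℂ) ≠ 0 ∧ β + η * (ξ + (n : ℂ))⁻¹ ∈ W) (g : ℚ[X])
    (hg : g.natDegree + 1 < J.card) : η * aeval ξ g / ∏ n ∈ J, (ξ + (n : ℂ)) ∈ W := by
  classical
  have hinj : ∀ F : Type, ∀ [Field F] [CharZero F], Set.InjOn (fun n : ℕ => -(n : F)) J := by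
    intro F _ _ a _ b _ h
    have : (a : F) = b := neg_injective h
    exact_mod_cast this
  have hP : ∏ n ∈ J, (ξ + (n : ℂ)) ≠ 0 := Finset.prod_ne_zero_iff.2 fun n hn => (hJ n hn).1
  set γ : ℕ → ℚ := fun n => g.eval (-(n : ℚ)) / ∏ j ∈ J.erase n, (-(n : ℚ) - -(j : ℚ)) with hγ
  have h1 : ∑ n ∈ J, γ n = 0 := by
    have h2 := Lagrange.coeff_eq_sum (s := J) (v := fun n : ℕ => -(n : ℚ)) (P := g) (hinj ℚ) (by
      rw [Polynomial.degree_lt_iff_coeff_zero]
      intro m hm
      exact coeff_eq_zero_of_natDegree_lt (by omega))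
    rw [coeff_eq_zero_of_natDegree_lt (by omega)] at h2
    exact h2.symm
  have h3 : aeval ξ g = (∏ n ∈ J, (ξ + (n : ℂ))) * ∑ n ∈ J, ((γ n : ℚ) : ℂ) * (ξ + (n : ℂ))⁻¹ := by
    have h4 : aeval ξ g = (g.map (algebraMap ℚ ℂ)).eval ξ := (eval_map_algebraMap g ξ).symm
    rw [h4, Lagrange.eq_interpolate (s := J) (v := fun n : ℕ => -(n : ℂ))
      (f := g.map (algebraMap ℚ ℂ)) (hinj ℂ) (by
        rw [degree_map, Polynomial.degree_lt_iff_coeff_zero]
        intro m hm
        exact coeff_eq_zero_of_natDegree_lt (by omega)),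
      Lagrange.eval_interpolate_not_at_node _ (by
        intro n hn h
        apply (hJ n hn).1
        rw [h]; ring), Lagrange.eval_nodal]
    congr 1
    · refine Finset.prod_congr rfl fun n _ => ?_
      ring
    · refine Finset.sum_congr rfl fun n _ => ?_
      have h5 : eval (-(n : ℂ)) (g.map (algebraMap ℚ ℂ)) = ((g.eval (-(n : ℚ)) : ℚ) : ℂ) := by
        have h6 : (-(n : ℂ)) = algebraMap ℚ ℂ (-(n : ℚ)) := by simp
        rw [h6, eval_map_apply]
        simp
      have h7 : Lagrange.nodalWeight J (fun n : ℕ => -(n : ℂ)) n =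
          (((∏ j ∈ J.erase n, (-(n : ℚ) - -(j : ℚ)))⁻¹ : ℚ) : ℂ) := by
        unfold Lagrange.nodalWeight
        push_cast
        rw [Finset.prod_inv_distrib]
      rw [h5, h7, hγ]
      push_cast
      rw [sub_neg_eq_add]
      ring
  have h8 : ∑ n ∈ J, γ n • (β + η * (ξ + (n : ℂ))⁻¹) ∈ W :=
    W.sum_mem fun n hn => W.smul_mem _ (hJ n hn).2
  have h9 : ∑ n ∈ J, γ n • (β + η * (ξ + (n : ℂ))⁻¹) =
      η * aeval ξ g / ∏ n ∈ J, (ξ + (n : ℂ)) := by
    rw [h3, mul_left_comm, mul_div_cancel_left₀ _ hP, Finset.mul_sum]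
    have h10 : ∀ n ∈ J, γ n • (β + η * (ξ + (n : ℂ))⁻¹) =
        β * ((γ n : ℚ) : ℂ) + η * (((γ n : ℚ) : ℂ) * (ξ + (n : ℂ))⁻¹) := by
      intro n _
      rw [Algebra.smul_def]
      simp only [eq_ratCast]
      ring
    rw [Finset.sum_congr rfl h10, Finset.sum_add_distrib, ← Finset.mul_sum]
    have h11 : ∑ n ∈ J, ((γ n : ℚ) : ℂ) = 0 := by
      rw [← Rat.cast_sum, h1, Rat.cast_zero]
    rw [h11, mul_zero, zero_add]
  rwa [h9] at h8

/-- many values in a space of dimension `N`: the line is contained in the space -/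
theorem line_bad (W : Submodule ℚ ℂ) [FiniteDimensional ℚ W] {N : ℕ} (hW : finrank ℚ W ≤ N)
    {β η ξ : ℂ} (hη : η ≠ 0) (I : Finset ℕ)
    (hI : ∀ n ∈ I, ξ + (n : ℂ) ≠ 0 ∧ β + η * (ξ + (n : ℂ))⁻¹ ∈ W) (hc : N + 2 ≤ I.card) :
    η ∈ W ∧ η * ξ ∈ W := by
  classical
  obtain ⟨J, hJI, hJ⟩ := Finset.exists_subset_card_eq hc
  have hJ' : ∀ n ∈ J, ξ + (n : ℂ) ≠ 0 ∧ β + η * (ξ + (n : ℂ))⁻¹ ∈ W := fun n hn => hI n (hJI hn)
  set Pr : ℂ := ∏ n ∈ J, (ξ + (n : ℂ)) with hPr
  have hPr0 : Pr ≠ 0 := Finset.prod_ne_zero_iff.2 fun n hn => (hJ' n hn).1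
  -- an algebraic relation
  have hrel : ∃ Q : ℚ[X], Q ≠ 0 ∧ Q.natDegree ≤ N ∧ aeval ξ Q = 0 := by
    let u : Fin (N + 1) → W := fun k => ⟨η * aeval ξ ((X : ℚ[X]) ^ (k : ℕ)) / Pr, by
      apply pf_mem W J hJ'
      rw [natDegree_X_pow, hJ]
      have := k.2
      omega⟩
    have hdep : ¬ LinearIndependent ℚ u := by
      intro h
      have h1 := h.fintype_card_le_finrank
      rw [Fintype.card_fin] at h1
      omega
    rw [Fintype.not_linearIndependent_iff] at hdep
    obtain ⟨c, hc0, k0, hk0⟩ := hdep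
    refine ⟨∑ k : Fin (N + 1), C (c k) * X ^ (k : ℕ), ?_, ?_, ?_⟩
    · intro h
      apply hk0
      have h1 := congrArg (fun P : ℚ[X] => P.coeff (k0 : ℕ)) h
      simp only [finsetSum_coeff, coeff_C_mul_X_pow, coeff_zero] at h1
      rw [Finset.sum_eq_single k0] at h1
      · simpa using h1
      · intro b _ hb
        rw [if_neg]
        intro h
        exact hb (Fin.ext h.symm)
      · intro h
        exact absurd (Finset.mem_univ _) h
    · apply natDegree_sum_le_of_forall_le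
      intro k _
      exact (natDegree_C_mul_X_pow_le _ _).trans (by have := k.2; omega)
    · have h1 := congrArg (fun w : W => (w : ℂ)) hc0
      simp only [Submodule.coe_sum, Submodule.coe_smul, ZeroMemClass.coe_zero, u] at h1
      have h2 : ∑ k : Fin (N + 1), c k • (η * aeval ξ ((X : ℚ[X]) ^ (k : ℕ)) / Pr) =
          η / Pr * aeval ξ (∑ k : Fin (N + 1), C (c k) * X ^ (k : ℕ)) := by
        rw [map_sum, Finset.mul_sum]
        refine Finset.sum_congr rfl fun k _ => ?_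
        rw [map_mul, aeval_C, Algebra.smul_def]
        ring
      rw [h2] at h1
      rcases mul_eq_zero.1 h1 with h3 | h3
      · exact absurd h3 (div_ne_zero hη hPr0)
      · exact h3
  obtain ⟨Q, hQ0, hQd, hQξ⟩ := hrel
  have key : ∀ Y : ℚ[X], η * aeval ξ Y ∈ W := by
    intro Y
    set P : ℚ[X] := (∏ n ∈ J, (X + C ((n : ℕ) : ℚ))) * Y with hP
    have h1 : (P % Q).natDegree ≤ N := by
      have h2 := EuclideanDomain.mod_lt P hQ0
      have h3 : (P % Q).degree < Q.degree := h2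
      exact natDegree_le_of_degree_le (h3.le.trans (natDegree_le_iff_degree_le.1 hQd))
    have h2 := pf_mem W J hJ' (P % Q) (by omega)
    have h3 : aeval ξ (P % Q) = aeval ξ P := by
      have h4 := congrArg (aeval ξ) (EuclideanDomain.div_add_mod P Q)
      rw [map_add, map_mul, hQξ, zero_mul, zero_add] at h4
      exact h4
    have h4 : aeval ξ P = Pr * aeval ξ Y := by
      rw [hP, map_mul, map_prod]
      congr 1
      refine Finset.prod_congr rfl fun n _ => ?_
      simp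
    rw [h3, h4, mul_left_comm, mul_div_cancel_left₀ _ hPr0] at h2
    exact h2
  refine ⟨?_, ?_⟩
  · have := key 1
    simpa using this
  · have := key X
    simpa using this

end Pool.Agent.E8helper37.RY
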