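import Pool.Agent.E8helper37.RY.Fam
import Pool.Agent.E8helper37.RY.Line

/-!
# Few points of a grid are mapped to a space of small dimension
-/

set_option autoImplicit false

namespace Pool.Agent.E8helper37.RY

open Finset Module
open Pool.Agent.E8helper37.RX

variable {σ : Type} {K : ℕ}

theorem pt2_update (v : σ → ℝ) (s : σ) (w : Fin K → List σ) {h : ℕ} (i : Fin K → Fin (h + 1))
    (k : Fin K) (x : Fin (h + 1)) : pt2 v s w h (Function.update i k x) =
      pt2 v s w h (Function.update i k 0) + (v s * (v s - 1)) * mon v (w k) * ((x : ℕ) : ℝ) := by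
  unfold pt2
  have h1 : ∀ y : Fin (h + 1), ∑ j : Fin K, (v s * v s + h * v s + (v s * (v s - 1)) *
      (((Function.update i k y j : Fin (h + 1)) : ℕ) : ℝ)) * mon v (w j) =
      (v s * v s + h * v s + (v s * (v s - 1)) * ((y : ℕ) : ℝ)) * mon v (w k) +
        ∑ j ∈ Finset.univ.erase k, (v s * v s + h * v s + (v s * (v s - 1)) *
          ((i j : ℕ) : ℝ)) * mon v (w j) := by
    intro y
    rw [← Finset.add_sum_erase _ _ (Finset.mem_univ k), Function.update_self]
    congr 1
    refine Finset.sum_congr rfl fun j hj => ?_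
    rw [Function.update_of_ne (Finset.mem_erase.1 hj).1]
  rw [h1 x, h1 0]
  simp only [Fin.val_zero, Nat.cast_zero, mul_zero, add_zero]
  ring

theorem diff_mem2 (W : Submodule ℚ ℂ) {κ z : ℂ} (hk : κ ∉ W) {m n : ℕ}
    (h1 : z + κ * (m : ℂ) ∈ W) (h2 : z + κ * (n : ℂ) ∈ W) : m = n := by
  by_contra hmn
  apply hk
  have h3 := W.sub_mem h1 h2
  have h4 : ((m : ℚ) - (n : ℚ)) ≠ 0 := by
    intro h
    apply hmn
    have : (m : ℚ) = n := by linear_combination h
    exact_mod_cast this
  have h5 := W.smul_mem (((m : ℚ) - (n : ℚ))⁻¹) h3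
  have h6 : ((m : ℚ) - (n : ℚ))⁻¹ • (z + κ * (m : ℂ) - (z + κ * (n : ℂ))) = κ := by
    rw [Algebra.smul_def]
    have h7 : ((m : ℂ) - (n : ℂ)) ≠ 0 := by
      intro h
      apply hmn
      have : (m : ℂ) = n := by linear_combination h
      exact_mod_cast this
    simp only [eq_ratCast, Rat.cast_inv, Rat.cast_sub, Rat.cast_natCast]
    field_simp
    ring
  rwa [h6] at h5

/-- independent vectors cannot all be in a space of small dimension -/
theorem exists_notMem (W : Submodule ℚ ℂ) [FiniteDimensional ℚ W] {ι : Type} [Fintype ι]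
    (hW : finrank ℚ W < Fintype.card ι) {u : ι → ℂ} (hu : LinearIndependent ℚ u) {c : ℂ}
    (hc : c ≠ 0) : ∃ k, c * u k ∉ W := by
  by_contra hcon
  push Not at hcon
  have h1 : LinearIndependent ℚ (fun k => c * u k) := by
    have h2 : LinearMap.ker (LinearMap.mulLeft ℚ c) = ⊥ := by
      rw [LinearMap.ker_eq_bot]
      intro x y hxy
      exact mul_left_cancel₀ hc hxy
    exact hu.map' (LinearMap.mulLeft ℚ c) h2
  have h3 : LinearIndependent ℚ (fun k => (⟨c * u k, hcon k⟩ : W)) := by
    apply LinearIndependent.of_comp W.subtype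
    exact h1
  have h4 := h3.fintype_card_le_finrank
  omega

/-- the count for a Möbius transformation -/
theorem base_grid {v : σ → ℝ} {s : σ} (hs0 : v s ≠ 0) (hs1 : v s ≠ 1) {N : ℕ}
    (w : Fin (N + 1) → List σ) (hw : LinearIndependent ℚ fun k => ((mon v (w k) : ℝ) : ℂ))
    {a b c d : ℂ} (hdet : a * d ≠ b * c) (W : Submodule ℚ ℂ) [FiniteDimensional ℚ W]
    (hW : finrank ℚ W ≤ N) (h : ℕ) :
    ∑ i : Fin (N + 1) → Fin (h + 1), ind ((a * ((pt2 v s w h i : ℝ) : ℂ) + b) /
      (c * ((pt2 v s w h i : ℝ) : ℂ) + d) ∈ W) ≤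
      ((N + 3 : ℝ) / ((h : ℝ) + 1)) * ((h : ℝ) + 1) ^ (N + 1) := by
  classical
  have hh : (0 : ℝ) < (h : ℝ) + 1 := by positivity
  set μ : ℂ := ((v s * (v s - 1) : ℝ) : ℂ) with hμ
  have hμ0 : μ ≠ 0 := by
    rw [hμ]
    exact_mod_cast mul_ne_zero hs0 (sub_ne_zero.2 hs1)
  have hpt : ∀ (i : Fin (N + 1) → Fin (h + 1)) (k : Fin (N + 1)) (x : Fin (h + 1)),
      ((pt2 v s w h (Function.update i k x) : ℝ) : ℂ) =
      ((pt2 v s w h (Function.update i k 0) : ℝ) : ℂ) +
        μ * ((mon v (w k) : ℝ) : ℂ) * (((x : ℕ)) : ℂ) := by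
    intro i k x
    rw [pt2_update, hμ]
    push_cast
    ring
  by_cases hc : c = 0
  · subst hc
    rw [mul_zero] at hdet
    have ha : a ≠ 0 := left_ne_zero_of_mul hdet
    have hd : d ≠ 0 := right_ne_zero_of_mul hdet
    obtain ⟨k, hk⟩ := exists_notMem W (by rw [Fintype.card_fin]; omega) hw (c := a / d * μ)
      (mul_ne_zero (div_ne_zero ha hd) hμ0)
    refine (count_coord k _ 1 ?_).trans ?_
    · intro i
      apply sum_ind_le
      intro I hI
      apply card_le_one_of
      intro m hm n hn
      obtain ⟨hm1, hm2⟩ := hI m hm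
      obtain ⟨hn1, hn2⟩ := hI n hn
      rw [hpt] at hm2 hn2
      refine diff_mem2 W hk (z := (a * ((pt2 v s w h (Function.update i k 0) : ℝ) : ℂ) + b) / d) ?_ ?_
      · convert hm2 using 1
        rw [zero_mul, zero_add]
        field_simp
        ring
      · convert hn2 using 1
        rw [zero_mul, zero_add]
        field_simp
        ring
    · apply mul_le_mul_of_nonneg_right _ (by positivity)
      apply div_le_div_of_nonneg_right _ hh.le
      have : (0 : ℝ) ≤ N := by positivity
      linarith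
  · set u0 : ℂ := μ * ((mon v (w 0) : ℝ) : ℂ) with hu0
    have hm0 : ((mon v (w 0) : ℝ) : ℂ) ≠ 0 := hw.ne_zero 0
    have hu00 : u0 ≠ 0 := mul_ne_zero hμ0 hm0
    set η : ℂ := (b * c - a * d) / (c ^ 2 * u0) with hη
    have hη0 : η ≠ 0 := div_ne_zero (sub_ne_zero.2 (Ne.symm hdet))
      (mul_ne_zero (pow_ne_zero 2 hc) hu00)
    let ξ : (Fin (N + 1) → Fin (h + 1)) → ℂ := fun i =>
      (((pt2 v s w h (Function.update i 0 0) : ℝ) : ℂ) + d / c) / u0
    let B : (Fin (N + 1) → Fin (h + 1)) → Prop := fun i => η ∈ W ∧ η * ξ i ∈ W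
    let Q : (Fin (N + 1) → Fin (h + 1)) → Prop := fun i => (a * ((pt2 v s w h i : ℝ) : ℂ) + b) /
      (c * ((pt2 v s w h i : ℝ) : ℂ) + d) ∈ W
    have hsplit : ∀ i, ind (Q i) ≤ ind (B i) + ind (¬ B i ∧ Q i) := by
      intro i
      by_cases h1 : B i
      · rw [ind_pos h1]
        have := ind_le_one (Q i)
        have := ind_nonneg (¬ B i ∧ Q i)
        linarith
      · rw [ind_neg h1, zero_add]
        exact ind_mono fun h => ⟨h1, h⟩
    have hB1 : ∑ i : Fin (N + 1) → Fin (h + 1), ind (B i) ≤
        1 / ((h : ℝ) + 1) * ((h : ℝ) + 1) ^ (N + 1) := by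
      by_cases hηW : η ∈ W
      · obtain ⟨k, hk⟩ := exists_notMem W (by rw [Fintype.card_fin]; omega) hw (c := η * μ / u0)
          (div_ne_zero (mul_ne_zero hη0 hμ0) hu00)
        have hk0 : k ≠ 0 := by
          rintro rfl
          apply hk
          have : η * μ / u0 * ((mon v (w 0) : ℝ) : ℂ) = η := by
            rw [hu0]; field_simp
          rw [this]
          exact hηW
        apply count_coord k
        intro i
        apply sum_ind_le
        intro I hI
        apply card_le_one_of
        intro m hm n hn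
        obtain ⟨hm1, hm2⟩ := hI m hm
        obtain ⟨hn1, hn2⟩ := hI n hn
        have key : ∀ x : Fin (h + 1), η * ξ (Function.update i k x) =
            η * ((((pt2 v s w h (Function.update (Function.update i 0 0) k 0) : ℝ) : ℂ) + d / c) / u0) +
              η * μ / u0 * ((mon v (w k) : ℝ) : ℂ) * ((x : ℕ) : ℂ) := by
          intro x
          simp only [ξ]
          rw [Function.update_comm hk0, hpt]
          ring
        refine diff_mem2 W hk (z := η * ((((pt2 v s w h (Function.update (Function.update i 0 0) k 0) :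
          ℝ) : ℂ) + d / c) / u0)) ?_ ?_
        · have := hm2.2
          rw [key] at this
          exact this
        · have := hn2.2
          rw [key] at this
          exact this
      · have h1 : ∀ i : Fin (N + 1) → Fin (h + 1), ind (B i) = 0 := fun i => ind_neg fun h => hηW h.1
        rw [Finset.sum_congr rfl fun i _ => h1 i, Finset.sum_const_zero]
        positivity
    have hB2 : ∑ i : Fin (N + 1) → Fin (h + 1), ind (¬ B i ∧ Q i) ≤
        (N + 2 : ℝ) / ((h : ℝ) + 1) * ((h : ℝ) + 1) ^ (N + 1) := by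
      apply count_coord 0
      intro i
      apply sum_ind_le
      intro I hI
      by_contra hcon
      push Not at hcon
      have hcard : N + 2 < I.card := by exact_mod_cast hcon
      obtain ⟨n0, hn0⟩ : I.Nonempty := by
        rw [← Finset.card_pos]; omega
      have hnB : ¬ B i := by
        obtain ⟨hn1, hn2, -⟩ := hI n0 hn0
        simp only [B, ξ, Function.update_idem] at hn2 ⊢
        exact hn2
      apply hnB
      have hJ : N + 2 ≤ (I.filter fun n : ℕ => ξ i + (n : ℂ) ≠ 0).card := by
        have h1 := Finset.card_filter_add_card_filter_not (s := I) (fun n : ℕ => ξ i + (n : ℂ) ≠ 0)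
        have h2 : (I.filter fun n : ℕ => ¬ (ξ i + (n : ℂ) ≠ 0)).card ≤ 1 := by
          rw [Finset.card_le_one]
          intro m hm n hn
          rw [Finset.mem_filter, not_not] at hm hn
          have : (m : ℂ) = n := by linear_combination hm.2 - hn.2
          exact_mod_cast this
        omega
      refine line_bad W hW (β := a / c) hη0 (I.filter fun n : ℕ => ξ i + (n : ℂ) ≠ 0) ?_ hJ
      intro n hn
      rw [Finset.mem_filter] at hn
      obtain ⟨hnI, hne⟩ := hn
      refine ⟨hne, ?_⟩
      obtain ⟨hn1, -, hn3⟩ := hI n hnI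
      simp only [Q] at hn3
      rw [hpt, ← hu0] at hn3
      have h2 : ((pt2 v s w h (Function.update i 0 0) : ℝ) : ℂ) = u0 * ξ i - d / c := by
        simp only [ξ]; field_simp; ring
      rw [h2] at hn3
      convert hn3 using 1
      have h3 : c * (u0 * ξ i - d / c + u0 * (n : ℂ)) + d = c * u0 * (ξ i + n) := by
        field_simp; ring
      have h4 : a * (u0 * ξ i - d / c + u0 * (n : ℂ)) + b =
          a * u0 * (ξ i + n) - a * d / c + b := by
        field_simp; ring
      simp only
      rw [h3, h4, hη]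
      generalize ξ i + (n : ℂ) = w at hne ⊢
      field_simp
      ring
    calc _ ≤ ∑ i : Fin (N + 1) → Fin (h + 1), (ind (B i) + ind (¬ B i ∧ Q i)) :=
          Finset.sum_le_sum fun i _ => hsplit i
      _ ≤ _ := by
        rw [Finset.sum_add_distrib]
        refine (add_le_add hB1 hB2).trans (le_of_eq ?_)
        ring

end Pool.Agent.E8helper37.RY
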