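import Pool.Agent.E8helper37.RY.Grid

/-!
# Almost all arithmetic expressions are outside every space of small dimension
-/

set_option autoImplicit false

namespace Pool.Agent.E8helper37.RY

open Finset Module
open Pool.Agent.E8helper37.RX
open Pool.Agent.H301R2.SSE (QB mem_QB Lt Lt_alg Lt_log)

variable {σ ο : Type}

theorem mon_mem_adjoin (v : σ → ℝ) (w : List σ) : mon v w ∈ Algebra.adjoin ℚ (Set.range v) := by
  induction w with
  | nil => simp [mon]
  | cons a w ih =>
    have : mon v (a :: w) = v a * mon v w := by simp [mon]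
    rw [this]
    exact mul_mem (Algebra.subset_adjoin ⟨a, rfl⟩) ih

theorem adjoin_le_span (v : σ → ℝ) :
    Subalgebra.toSubmodule (Algebra.adjoin ℚ (Set.range v)) = Submodule.span ℚ (Set.range (mon v)) := by
  apply le_antisymm
  · rw [Algebra.adjoin_eq_span, Submodule.span_le]
    intro x hx
    apply Submodule.subset_span
    induction hx using Submonoid.closure_induction with
    | mem x hx =>
      obtain ⟨s, rfl⟩ := hx
      exact ⟨[s], by simp [mon]⟩
    | one => exact ⟨[], by simp [mon]⟩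
    | mul x y _ _ hx hy =>
      obtain ⟨w, rfl⟩ := hx
      obtain ⟨w', rfl⟩ := hy
      exact ⟨w ++ w', by simp [mon]⟩
  · rw [Submodule.span_le]
    rintro _ ⟨w, rfl⟩
    exact mon_mem_adjoin v w

/-- independent monomials -/
theorem exists_words {v : σ → ℝ} {N : ℕ} (hN : ∀ L : IntermediateField ℚ ℝ, (∀ s, v s ∈ L) →
    FiniteDimensional ℚ L → N < finrank ℚ L) :
    ∃ w : Fin (N + 1) → List σ, LinearIndependent ℚ fun k => ((mon v (w k) : ℝ) : ℂ) := by
  classical
  obtain ⟨b, hb1, hb2, hb3⟩ := exists_linearIndependent ℚ (Set.range (mon v))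
  have hmain : ∃ t : Finset ℝ, (t : Set ℝ) ⊆ b ∧ t.card = N + 1 := by
    by_cases hfin : b.Finite
    · by_cases hcard : N + 1 ≤ hfin.toFinset.card
      · obtain ⟨t, ht1, ht2⟩ := Finset.exists_subset_card_eq hcard
        refine ⟨t, fun x hx => ?_, ht2⟩
        have := ht1 hx
        simpa using this
      · exfalso
        have hsp : Subalgebra.toSubmodule (Algebra.adjoin ℚ (Set.range v)) = Submodule.span ℚ b := by
          rw [adjoin_le_span, hb2]
        have hfd : FiniteDimensional ℚ (Submodule.span ℚ b) :=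
          FiniteDimensional.span_of_finite ℚ hfin
        have hfr : finrank ℚ (Submodule.span ℚ b) ≤ N := by
          have h1 := finrank_span_finset_le_card (R := ℚ) hfin.toFinset
          rw [Set.finrank, Set.Finite.coe_toFinset] at h1
          omega
        rw [← hsp] at hfd hfr
        have hfd' : FiniteDimensional ℚ (Algebra.adjoin ℚ (Set.range v)) := hfd
        have halg : ∀ x ∈ Set.range v, IsAlgebraic ℚ x := by
          intro x hx
          have h1 : IsIntegral ℚ (⟨x, Algebra.subset_adjoin hx⟩ : Algebra.adjoin ℚ (Set.range v)) :=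
            IsIntegral.of_finite ℚ _
          exact (h1.map (Algebra.adjoin ℚ (Set.range v)).val).isAlgebraic
        have hL : (IntermediateField.adjoin ℚ (Set.range v)).toSubalgebra =
            Algebra.adjoin ℚ (Set.range v) :=
          IntermediateField.adjoin_toSubalgebra_of_isAlgebraic halg
        have hLfd : FiniteDimensional ℚ (IntermediateField.adjoin ℚ (Set.range v)) := by
          have : FiniteDimensional ℚ (IntermediateField.adjoin ℚ (Set.range v)).toSubalgebra := by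
            rw [hL]; exact hfd'
          exact this
        have h2 := hN (IntermediateField.adjoin ℚ (Set.range v))
          (fun s => IntermediateField.subset_adjoin ℚ _ ⟨s, rfl⟩) hLfd
        have h3 : finrank ℚ (IntermediateField.adjoin ℚ (Set.range v)) =
            finrank ℚ (Algebra.adjoin ℚ (Set.range v)) := by
          have : finrank ℚ (IntermediateField.adjoin ℚ (Set.range v)) =
            finrank ℚ (IntermediateField.adjoin ℚ (Set.range v)).toSubalgebra := rfl
          rw [this, hL]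
        have h4 : finrank ℚ (Algebra.adjoin ℚ (Set.range v)) ≤ N := hfr
        omega
    · obtain ⟨t, ht1, ht2⟩ := Set.Infinite.exists_subset_card_eq hfin (N + 1)
      exact ⟨t, ht1, ht2⟩
  obtain ⟨t, ht1, ht2⟩ := hmain
  have hch : ∀ x : t, ∃ w : List σ, mon v w = (x : ℝ) := fun x => hb1 (ht1 x.2)
  choose w hw using hch
  let e : Fin (N + 1) ≃ t := (finCongr ht2.symm).trans t.equivFin.symm
  refine ⟨fun k => w (e k), ?_⟩
  have h1 : LinearIndependent ℚ (fun x : t => (x : ℝ)) := by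
    have h2 := hb3.comp (fun x : t => (⟨(x : ℝ), ht1 x.2⟩ : b)) (by
      intro x y hxy
      exact Subtype.ext (by simpa using hxy))
    exact h2
  have h3 := h1.comp e e.injective
  have hker : LinearMap.ker ((Complex.ofRealLI.toLinearMap : ℝ →ₗ[ℝ] ℂ).restrictScalars ℚ) = ⊥ := by
    rw [LinearMap.ker_eq_bot]
    intro x y hxy
    exact Complex.ofReal_injective hxy
  have h4 := h3.map' _ hker
  have h5 : (fun k => ((mon v (w (e k)) : ℝ) : ℂ)) =
      ((Complex.ofRealLI.toLinearMap : ℝ →ₗ[ℝ] ℂ).restrictScalars ℚ) ∘ ((fun x : t => (x : ℝ)) ∘ e) := by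
    funext k
    simp [hw]
  rw [h5]
  exact h4

section

variable [Fintype σ] [Fintype ο] [DecidableEq σ] [DecidableEq ο]

theorem main_space {f : ο → ℝ → ℝ → ℝ} (hf : Ari f) {v : σ → ℝ} (hv : ∀ s, 0 < v s)
    {p q : ο} (hp : f p = fun x y => x + y) (hq : f q = fun x y => x * y) (hpq : p ≠ q)
    {N : ℕ} (hN1 : 1 ≤ N) (hN : ∀ L : IntermediateField ℚ ℝ, (∀ s, v s ∈ L) →
      FiniteDimensional ℚ L → N < finrank ℚ L) {ε : ℝ} (hε : 0 < ε) :
    ∃ n₀, ∀ n ≥ n₀, ∀ a b c d : ℂ, a * d ≠ b * c → ∀ W : Submodule ℚ ℂ,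
      FiniteDimensional ℚ W → finrank ℚ W ≤ N →
      ∑ t ∈ ex σ ο n, ind ((a * ((t.value f v : ℝ) : ℂ) + b) /
        (c * ((t.value f v : ℝ) : ℂ) + d) ∈ W) ≤ ε * Tn σ ο n := by
  obtain ⟨w, hw⟩ := exists_words hN
  obtain ⟨s, hs1⟩ : ∃ s, v s ≠ 1 := by
    by_contra hcon
    push Not at hcon
    have h1 := hN ⊥ (fun s => by rw [hcon s]; exact one_mem _) inferInstance
    rw [IntermediateField.finrank_bot] at h1
    omega
  obtain ⟨h, hh⟩ : ∃ h : ℕ, (N + 3 : ℝ) / ((h : ℝ) + 1) ≤ ε / 2 := by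
    obtain ⟨H, hH⟩ := exists_nat_gt ((N + 3 : ℝ) / (ε / 2))
    refine ⟨H, ?_⟩
    rw [div_lt_iff₀ (half_pos hε)] at hH
    rw [div_le_iff₀ (by positivity)]
    nlinarith
  let R : (ℂ → Prop) → Prop := fun Q => ∃ W : Submodule ℚ ℂ, FiniteDimensional ℚ W ∧
    finrank ℚ W ≤ N ∧ ∀ z, Q z → z ∈ W
  have hm := fam2_nodes p q s w h
  have hm0 : 1 ≤ ∑ k : Fin (N + 1), ((w k).length + (h + 2)) := by
    calc 1 ≤ (w 0).length + (h + 2) := by omega
      _ ≤ _ := Finset.single_le_sum (f := fun k : Fin (N + 1) => (w k).length + (h + 2))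
        (fun _ _ => Nat.zero_le _) (Finset.mem_univ _)
  obtain ⟨n₀, hn₀⟩ := assemble2 (f := f) (v := v) hm hm0 (by
      unfold fam2
      exact Finset.univ_nonempty.image _) (Fintype.card_pos_iff.2 ⟨s⟩) (Fintype.card_pos_iff.2 ⟨p⟩)
    (PhiM R) (PhiM_closed hf hv R) ((N + 3 : ℝ) / ((h : ℝ) + 1)) (by positivity) (by
      rintro P ⟨a, b, c, d, Q, hdet, ⟨W, hW, hWN, hQW⟩, hP⟩
      rw [fam2_card hpq]
      refine le_trans (Finset.sum_le_sum fun t _ => ind_mono (q := (a * ((t.value f v : ℝ) : ℂ) + b) /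
        (c * ((t.value f v : ℝ) : ℂ) + d) ∈ W) fun hi => ?_) ?_
      · exact hQW _ (hP _ (value_pos hf.pos hv t) hi)
      · rw [fam2_sum hp hq hpq s w h (fun x => (a * ((x : ℝ) : ℂ) + b) /
          (c * ((x : ℝ) : ℂ) + d) ∈ W)]
        exact base_grid (hv s).ne' hs1 w hw hdet W hWN h) (half_pos hε)
  refine ⟨n₀, fun n hn a b c d hdet W hW hWN => ?_⟩
  refine (hn₀ n hn (fun x => (a * ((x : ℝ) : ℂ) + b) / (c * ((x : ℝ) : ℂ) + d) ∈ W)
    ⟨a, b, c, d, fun z => z ∈ W, hdet, ⟨W, hW, hWN, fun _ h => h⟩, fun _ _ h => h⟩).trans ?_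
  apply mul_le_mul_of_nonneg_right _ (Tn_nonneg n)
  linarith

end

section

variable [Fintype σ] [Fintype ο] [DecidableEq σ] [DecidableEq ο]

/-- `x` is algebraic of degree at most `m` -/
def DegLe (m : ℕ) (x : ℝ) : Prop :=
  ∃ P : Polynomial ℚ, P ≠ 0 ∧ P.natDegree ≤ m ∧ Polynomial.aeval x P = 0

theorem DegLe.isAlgebraic {m : ℕ} {x : ℝ} (h : DegLe m x) : IsAlgebraic ℚ x := by
  obtain ⟨P, hP, -, h⟩ := h
  exact ⟨P, hP, h⟩

omit [Fintype σ] [Fintype ο] [DecidableEq σ] [DecidableEq ο] in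
theorem value_mem {f : ο → ℝ → ℝ → ℝ} (hf : Ari f) {v : σ → ℝ} (K : IntermediateField ℚ ℝ)
    (hK : ∀ s, v s ∈ K) (t : Expr σ ο) : t.value f v ∈ K := by
  induction t with
  | leaf s => exact hK s
  | node o l r hl hr =>
    simp only [Expr.value]
    rcases hf o with h | h | h
    · rw [h]; exact K.add_mem hl hr
    · rw [h]; exact K.mul_mem hl hr
    · rw [h]; exact K.div_mem hl hr

/-- the subspace of `ℂ` given by a subfield of `K` -/
noncomputable def WF (K : IntermediateField ℚ ℝ) (F : IntermediateField ℚ K) : Submodule ℚ ℂ :=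
  (Subalgebra.toSubmodule F.toSubalgebra).map
    (((Complex.ofRealLI.toLinearMap : ℝ →ₗ[ℝ] ℂ).restrictScalars ℚ).comp K.val.toLinearMap)

theorem WF_fd (K : IntermediateField ℚ ℝ) [FiniteDimensional ℚ K] (F : IntermediateField ℚ K) :
    FiniteDimensional ℚ (WF K F) := by
  unfold WF
  infer_instance

theorem WF_finrank (K : IntermediateField ℚ ℝ) [FiniteDimensional ℚ K] (F : IntermediateField ℚ K) :
    finrank ℚ (WF K F) ≤ finrank ℚ F := by
  unfold WF
  exact Submodule.finrank_map_le _ _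

/-- an element of `K` which does not generate `K` lies in a proper subfield -/
theorem mem_WF (K : IntermediateField ℚ ℝ) [FiniteDimensional ℚ K] (F : IntermediateField ℚ K)
    {x : ℝ} (hx : x ∈ K) (h : (⟨x, hx⟩ : K) ∈ F) : (x : ℂ) ∈ WF K F := by
  unfold WF
  exact ⟨⟨x, hx⟩, h, rfl⟩

theorem DegLe.exists (K : IntermediateField ℚ ℝ) [FiniteDimensional ℚ K] {x : ℝ} {N : ℕ}
    (hx : x ∈ K) (h : DegLe N x) : ∃ F : IntermediateField ℚ K, finrank ℚ F ≤ N ∧
      (⟨x, hx⟩ : K) ∈ F := by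
  obtain ⟨P, hP, hPd, hPx⟩ := h
  refine ⟨IntermediateField.adjoin ℚ {(⟨x, hx⟩ : K)}, ?_,
    IntermediateField.mem_adjoin_simple_self ℚ _⟩
  rw [IntermediateField.adjoin.finrank (IsIntegral.of_finite ℚ _)]
  refine le_trans (Polynomial.natDegree_le_natDegree (minpoly.degree_le_of_ne_zero ℚ _ hP ?_)) hPd
  have h1 : K.val (Polynomial.aeval (⟨x, hx⟩ : K) P) = 0 := by
    rw [← Polynomial.aeval_algHom_apply]
    exact hPx
  exact (map_eq_zero_iff K.val K.val.injective).1 h1

theorem fin_sub (K : IntermediateField ℚ ℝ) [FiniteDimensional ℚ K] :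
    Finite (IntermediateField ℚ K) :=
  Field.finite_intermediateField_of_exists_primitive_element ℚ K
    (Field.exists_primitive_element ℚ K)

/-- the value generates the whole field, or rather: few values in subfields of degree at most `N` -/
theorem main_sub {f : ο → ℝ → ℝ → ℝ} (hf : Ari f) {v : σ → ℝ} (hv : ∀ s, 0 < v s)
    {p q : ο} (hp : f p = fun x y => x + y) (hq : f q = fun x y => x * y) (hpq : p ≠ q)
    {N : ℕ} (hN1 : 1 ≤ N) (hN : ∀ L : IntermediateField ℚ ℝ, (∀ s, v s ∈ L) →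
      FiniteDimensional ℚ L → N < finrank ℚ L) (K : IntermediateField ℚ ℝ)
    [FiniteDimensional ℚ K] (hK : ∀ s, v s ∈ K) {ε : ℝ} (hε : 0 < ε) :
    ∃ n₀, ∀ n ≥ n₀, ∑ t ∈ ex σ ο n, ind (∃ F : IntermediateField ℚ K, finrank ℚ F ≤ N ∧
      (⟨t.value f v, value_mem hf K hK t⟩ : K) ∈ F) ≤ ε * Tn σ ο n := by
  classical
  have := fin_sub K
  have hft : Fintype (IntermediateField ℚ K) := Fintype.ofFinite _
  set S : Finset (IntermediateField ℚ K) := Finset.univ.filter fun F => finrank ℚ F ≤ N with hS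
  obtain ⟨n₀, hn₀⟩ := main_space hf hv hp hq hpq hN1 hN (ε := ε / (S.card + 1)) (by positivity)
  refine ⟨n₀, fun n hn => ?_⟩
  have h1 : ∀ t ∈ ex σ ο n, ind (∃ F : IntermediateField ℚ K, finrank ℚ F ≤ N ∧
      (⟨t.value f v, value_mem hf K hK t⟩ : K) ∈ F) ≤
      ∑ F ∈ S, ind (((t.value f v : ℝ) : ℂ) ∈ WF K F) := by
    intro t _
    by_cases h : ∃ F : IntermediateField ℚ K, finrank ℚ F ≤ N ∧
      (⟨t.value f v, value_mem hf K hK t⟩ : K) ∈ F
    · rw [ind_pos h]
      obtain ⟨F, hF1, hF2⟩ := h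
      have h2 : F ∈ S := by rw [hS, Finset.mem_filter]; exact ⟨Finset.mem_univ _, hF1⟩
      calc (1 : ℝ) = ind (((t.value f v : ℝ) : ℂ) ∈ WF K F) :=
            (ind_pos (mem_WF K F (value_mem hf K hK t) hF2)).symm
        _ ≤ _ := Finset.single_le_sum (f := fun F => ind (((t.value f v : ℝ) : ℂ) ∈ WF K F))
          (fun _ _ => ind_nonneg _) h2
    · rw [ind_neg h]
      exact Finset.sum_nonneg fun _ _ => ind_nonneg _
  refine (Finset.sum_le_sum h1).trans ?_
  rw [Finset.sum_comm]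
  have h2 : ∀ F ∈ S, ∑ t ∈ ex σ ο n, ind (((t.value f v : ℝ) : ℂ) ∈ WF K F) ≤
      ε / (S.card + 1) * Tn σ ο n := by
    intro F hF
    rw [hS, Finset.mem_filter] at hF
    have h3 := hn₀ n hn 1 0 0 1 (by simp) (WF K F) (WF_fd K F) ((WF_finrank K F).trans hF.2)
    simpa using h3
  refine (Finset.sum_le_sum h2).trans ?_
  rw [Finset.sum_const, nsmul_eq_mul, ← mul_assoc]
  apply mul_le_mul_of_nonneg_right _ (Tn_nonneg n)
  rw [mul_div_assoc', div_le_iff₀ (by positivity)]
  nlinarith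

theorem main_deg {f : ο → ℝ → ℝ → ℝ} (hf : Ari f) {v : σ → ℝ} (hv : ∀ s, 0 < v s)
    {p q : ο} (hp : f p = fun x y => x + y) (hq : f q = fun x y => x * y) (hpq : p ≠ q)
    {N : ℕ} (hN1 : 1 ≤ N) (hN : ∀ L : IntermediateField ℚ ℝ, (∀ s, v s ∈ L) →
      FiniteDimensional ℚ L → N < finrank ℚ L) {ε : ℝ} (hε : 0 < ε) :
    ∃ n₀, ∀ n ≥ n₀, ∑ t ∈ ex σ ο n, ind (DegLe N (t.value f v)) ≤ ε * Tn σ ο n := by
  classical
  by_cases htr : ∃ s, Transcendental ℚ (v s)
  · obtain ⟨s, hs⟩ := htr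
    obtain ⟨n₀, hn₀⟩ := main_mob hf hv hp hq hpq hs 0 hε
    refine ⟨n₀, fun n hn => ?_⟩
    refine le_trans (Finset.sum_le_sum fun t _ => ind_mono fun h => ?_)
      (hn₀ n hn 1 0 0 1 (by simp) ⊥ inferInstance (by simp))
    have h1 : ((t.value f v : ℝ) : ℂ) ∈ Lt := Lt_alg (h.isAlgebraic.algebraMap (A := ℂ))
    simpa using h1
  · push Not at htr
    have halg : ∀ s, IsIntegral ℚ (v s) := fun s => (not_not.1 (htr s)).isIntegral
    have hfd : FiniteDimensional ℚ (IntermediateField.adjoin ℚ (Set.range v)) := by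
      have h1 : (Set.range v).Finite := Set.finite_range v
      exact IntermediateField.finiteDimensional_adjoin (by
        rintro x ⟨s, rfl⟩
        exact halg s)
    have hK : ∀ s, v s ∈ IntermediateField.adjoin ℚ (Set.range v) :=
      fun s => IntermediateField.subset_adjoin ℚ _ ⟨s, rfl⟩
    obtain ⟨n₀, hn₀⟩ := main_sub hf hv hp hq hpq hN1 hN _ hK hε
    refine ⟨n₀, fun n hn => ?_⟩
    refine le_trans (Finset.sum_le_sum fun t _ => ind_mono fun h => ?_) (hn₀ n hn)
    exact h.exists _ (value_mem hf _ hK t)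

end

end Pool.Agent.E8helper37.RY
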